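import Pool.Agent.V11270.DS.D

/-!
# The polynomial Freiman-Ruzsa conjecture for sets which are dense in a down-set

A finite set `D` of points of `ℕ ^ d` is a down-set (`IsDown`) if it contains with `x` all `0 ≤ y ≤ x`;
it need not be convex, and the dimension `d` is arbitrary. The conclusion of Q1, with polynomial
bounds, is proved for all sets `A` which have a large intersection with a coset progression
`g + ψ(X) + H`, where `X ⊆ ℕ ^ d` has doubling at most `K` and is dense in its down-hull. For a down-set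
`D` itself more is true: `D` contains a box `[0, a]` with at most `7 log₂ K` nonzero sides and at
least `|D| / K ^ 19` points, and it is covered by `K ^ 20` translates of `[-a, a]`.

More generally `X` may be dense in any finite set `U` of integer points with Kleitman's property
`Klei`: for every `s` the part of `U` that is symmetric with respect to `s / 2` has, in its convex hull, at
most `K |U| ^ 2` integer points divided by its number of elements. Down-sets have this property by
the theorem of Harris and Kleitman, sets of all integer points of convex sets have it trivially (these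
were treated in the starting result `DimensionFree`), and it is inherited by products.

Proof. Let `s` be the most popular sum of `X`. The part `Z` of `X` which is symmetric with respect to
`s / 2` has at least `|X| / K` elements, and by Kleitman's property it is dense in its convex hull. So
the structure theorem of the library of `DimensionFree` applies to `Z`, and Ruzsa's covering lemma gives
the structure of `X` and of `A`. For a down-set `D` the box `[0, s]` is contained in `D + D`, its
dimension is bounded with Plünnecke's inequality and three times the box, and a second moment gives an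
element `a` of `D` below `s` for which `[0, a]` is not much smaller than `[0, s]`.
-/

set_option autoImplicit false

namespace Pool.Agent.Results.MP_dd2a7c_co.DownSets

open Finset
open scoped Pointwise
open Pool.Agent.Y806.DF Pool.Agent.V11270.DS

universe u

/-- The conclusion of Q1 for the set `A`, with the constant `C`: `A` is covered by `C K ^ C`
translates of a centred convex coset progression of dimension at most `C log (2 K)` and volume
at most `|A|`. -/
def Conclusion (C K : ℝ) {Γ : Type u} [AddCommGroup Γ] (A : Finset Γ) : Prop :=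
  ∃ (r : ℕ) (B : Set (Fin r → ℝ)) (θ : (Fin r → ℤ) →+ Γ) (H' : AddSubgroup Γ) (T : Finset Γ),
    (r : ℝ) ≤ C * Real.log (2 * K) ∧ Body B ∧ Finite H' ∧
    (lat B).ncard * Nat.card H' ≤ A.card ∧ (T.card : ℝ) ≤ C * K ^ C ∧ Cov B θ H' T A

/-- the constant -/
theorem general : ∃ C : ℝ, ∀ (Γ : Type u) [AddCommGroup Γ] [DecidableEq Γ] (K : ℝ) (A : Finset Γ),
    A.Nonempty → ((A + A).card : ℝ) ≤ K * A.card →
    ∀ (d : ℕ) (U X : Finset (Fin d → ℤ)) (ψ : (Fin d → ℤ) →+ Γ) (H : AddSubgroup Γ) (g : Γ),
      KData K A U X ψ H g → Conclusion C K A := by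
  refine ⟨((5000 * 4096 ^ 5000 + 118500000 : ℕ) : ℝ), ?_⟩
  intro Γ _ _ K A hA hK d U X ψ H g hD
  have hK1 := one_le_K hA hK
  have hK0 : 0 < K := by linarith
  obtain ⟨r, X', ψ', g', hD'⟩ := to_data hA hK1 hD
  have hKK : K ≤ 4096 * K ^ 23700 := by
    have h1 : K ≤ K ^ 23700 := le_self_pow₀ hK1 (by norm_num)
    have h2 : 0 < K ^ 23700 := by positivity
    linarith
  obtain ⟨r', B, θ, H', T, h1, h2, h3, h4, h5, h6⟩ := main hA
    (hK.trans (mul_le_mul_of_nonneg_right hKK (Nat.cast_nonneg _))) hD'
  have hlog0 : 0 ≤ Real.log (2 * K) := Real.log_nonneg (by linarith)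
  refine ⟨r', B, θ, H', T, ?_, h2, h3, h4, ?_, h6⟩
  · have h7 : 2 * (4096 * K ^ 23700) ≤ (2 * K) ^ 23700 := by
      have e1 : (2 : ℝ) * 4096 ≤ 2 ^ 23700 := by
        calc (2 : ℝ) * 4096 = 2 ^ 13 := by norm_num
          _ ≤ 2 ^ 23700 := pow_le_pow_right₀ (by norm_num) (by norm_num)
      have e2 : 0 ≤ K ^ 23700 := by positivity
      rw [mul_pow, ← mul_assoc]
      exact mul_le_mul_of_nonneg_right e1 e2
    have h8 : Real.log (2 * (4096 * K ^ 23700)) ≤ (23700 : ℕ) * Real.log (2 * K) := by
      rw [← Real.log_pow]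
      exact Real.log_le_log (by positivity) h7
    calc (r' : ℝ) ≤ 500 * Real.log (2 * (4096 * K ^ 23700)) := h1
      _ ≤ 500 * ((23700 : ℕ) * Real.log (2 * K)) := mul_le_mul_of_nonneg_left h8 (by norm_num)
      _ = 11850000 * Real.log (2 * K) := by push_cast; ring
      _ ≤ ((5000 * 4096 ^ 5000 + 118500000 : ℕ) : ℝ) * Real.log (2 * K) := by
        refine mul_le_mul_of_nonneg_right ?_ hlog0
        have e3 : (11850000 : ℝ) = ((11850000 : ℕ) : ℝ) := by norm_num
        rw [e3]
        have e4 : 11850000 ≤ 5000 * 4096 ^ 5000 + 118500000 := by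
          have := Nat.zero_le (5000 * 4096 ^ 5000)
          omega
        exact_mod_cast e4
  · have h7 : ((4096 : ℝ) * K ^ 23700) ^ 5000 = 4096 ^ 5000 * K ^ 118500000 := by
      rw [mul_pow, ← pow_mul]
    have h8 : K ^ (118500000 : ℕ) ≤ K ^ ((5000 * 4096 ^ 5000 + 118500000 : ℕ) : ℝ) := by
      refine pow_le_rpow hK1 ?_
      have e4 : 118500000 ≤ 5000 * 4096 ^ 5000 + 118500000 := Nat.le_add_left _ _
      exact_mod_cast e4
    have h9 : (5000 : ℝ) * 4096 ^ 5000 ≤ ((5000 * 4096 ^ 5000 + 118500000 : ℕ) : ℝ) := by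
      have e4 : 5000 * 4096 ^ 5000 ≤ 5000 * 4096 ^ 5000 + 118500000 := Nat.le_add_right _ _
      exact_mod_cast e4
    calc (T.card : ℝ) ≤ 5000 * (4096 * K ^ 23700) ^ 5000 := h5
      _ = (5000 * 4096 ^ 5000) * K ^ 118500000 := by rw [h7, mul_assoc]
      _ ≤ _ := mul_le_mul h9 h8 (by positivity) (Nat.cast_nonneg _)

/-- **Freiman's theorem with polynomial bounds for sets which are dense in a down-set.**
(1) The conclusion of Q1 holds, with an absolute constant, for all sets `A` with
`|A + A| ≤ K |A|` which have a large intersection with a coset progression `g + ψ(X) + H`, where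
`X ⊆ ℤ ^ d`, `d` arbitrary, has doubling at most `K` and is dense in a set `U` with Kleitman's property.
(2) Kleitman's property holds for down-sets, for the sets of all integer points of convex sets, and
for products of sets with this property.
(3) In particular the conclusion of Q1 holds for all finite sets `A ⊆ ℕ ^ d`, `d` arbitrary, which
are dense in their down-hull.
(4) A finite down-set `D ⊆ ℕ ^ d` with `|D + D| ≤ K |D|` contains a box `[0, a]` with at least
`|D| / K ^ 19` points and at most `7 log₂ K` nonzero sides, and it is covered by `K ^ 20` translates of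
the box `[-a, a]`. -/
theorem result :
    (∃ C : ℝ, ∀ (Γ : Type u) [AddCommGroup Γ] [DecidableEq Γ] (K : ℝ) (A : Finset Γ),
      A.Nonempty → ((A + A).card : ℝ) ≤ K * A.card →
      ∀ (d : ℕ) (U X : Finset (Fin d → ℤ)) (ψ : (Fin d → ℤ) →+ Γ) (H : AddSubgroup Γ) (g : Γ),
        KData K A U X ψ H g → Conclusion C K A) ∧
    ((∀ (d : ℕ) (D : Finset (Fin d → ℤ)), IsDown D → Klei 1 D) ∧
      (∀ (d : ℕ) (U : Finset (Fin d → ℤ)), hull U = (U : Set (Fin d → ℤ)) → Klei 1 U) ∧
      ∀ (a b : ℕ) (M N : ℝ) (U : Finset (Fin a → ℤ)) (V : Finset (Fin b → ℤ)), 0 ≤ M →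
        Klei M U → Klei N V → Klei (M * N) (prodSet U V)) ∧
    (∃ C : ℝ, ∀ (d : ℕ) (K : ℝ) (A : Finset (Fin d → ℤ)), A.Nonempty → (∀ a ∈ A, 0 ≤ a) →
      ((A + A).card : ℝ) ≤ K * A.card → ((downHull A).card : ℝ) ≤ K * A.card →
        Conclusion C K A) ∧
    (∀ (d : ℕ) (K : ℝ) (D : Finset (Fin d → ℤ)), IsDown D → D.Nonempty →
      ((D + D).card : ℝ) ≤ K * D.card →
        ∃ a ∈ D, (D.card : ℝ) ≤ K ^ 19 * (Finset.Icc 0 a).card ∧
          (2 : ℝ) ^ (Finset.univ.filter (fun i => a i ≠ 0)).card ≤ K ^ 7 ∧
          ∃ T : Finset (Fin d → ℤ), (T.card : ℝ) ≤ K ^ 20 ∧ D ⊆ T + Finset.Icc (-a) a) := by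
  refine ⟨general, ⟨fun d D hD => klei_down hD, fun d U hU => klei_convex hU,
    fun a b M N U V hM hU hV => klei_prod hM hU hV⟩, ?_, ?_⟩
  · obtain ⟨C, hC⟩ := general.{0}
    refine ⟨C, fun d K A hA h0 hK hh => ?_⟩
    have hK1 := one_le_K hA hK
    have h1 : (A.card : ℝ) ≤ K * A.card := by
      calc (A.card : ℝ) = 1 * A.card := (one_mul _).symm
        _ ≤ K * A.card := mul_le_mul_of_nonneg_right hK1 (Nat.cast_nonneg _)
    refine hC (Fin d → ℤ) K A hA hK d (downHull A) A (AddMonoidHom.id _) ⊥ 0
      ⟨hA, inferInstance, (klei_down (down_downHull A)).mono hK1, subset_downHull h0, hh, hK, ?_, ?_⟩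
    · have : Nat.card (⊥ : AddSubgroup (Fin d → ℤ)) = 1 := by simp
      rw [this, Nat.cast_one, mul_one]
      exact h1
    · have h2 : {a : Fin d → ℤ | a ∈ A ∧ ∃ x ∈ A, ∃ h ∈ (⊥ : AddSubgroup (Fin d → ℤ)),
          a = 0 + (AddMonoidHom.id (Fin d → ℤ)) x + h} = (A : Set (Fin d → ℤ)) := by
        ext a
        constructor
        · rintro ⟨ha, -⟩
          exact ha
        · intro ha
          exact ⟨ha, a, ha, 0, AddSubgroup.zero_mem _, by simp⟩
      rw [h2, Set.ncard_coe_finset]
      exact h1
  · intro d K D hD hne hK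
    have hK1 := one_le_K hne hK
    have hK0 : 0 < K := by linarith
    obtain ⟨a, ha, h1, h2⟩ := down_box hD hne hK
    have ha0 := hD.1 a ha
    have hPD : Finset.Icc 0 a ⊆ D := by
      intro x hx
      rw [Finset.mem_Icc] at hx
      exact hD.2 a ha x hx.1 hx.2
    have hPne : (Finset.Icc 0 a).Nonempty := ⟨0, Finset.mem_Icc.2 ⟨le_rfl, ha0⟩⟩
    have h3 : ((D + Finset.Icc 0 a).card : ℝ) ≤ K ^ 20 * (Finset.Icc 0 a).card := by
      calc ((D + Finset.Icc 0 a).card : ℝ) ≤ (D + D).card := by
            exact_mod_cast Finset.card_le_card (Finset.add_subset_add_left hPD)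
        _ ≤ K * D.card := hK
        _ ≤ K * (K ^ 19 * (Finset.Icc 0 a).card) := mul_le_mul_of_nonneg_left h1 hK0.le
        _ = K ^ 20 * (Finset.Icc 0 a).card := by ring
    obtain ⟨T, -, hT, hcov⟩ := Finset.ruzsa_covering_add hPne h3
    refine ⟨a, ha, h1, h2, T, hT, hcov.trans (Finset.add_subset_add_left ?_)⟩
    intro x hx
    obtain ⟨y, hy, z, hz, rfl⟩ := Finset.mem_sub.1 hx
    rw [Finset.mem_Icc] at hy hz ⊢
    constructor
    · calc -a ≤ -z := neg_le_neg hz.2
        _ ≤ y - z := by
          rw [sub_eq_add_neg]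
          exact le_add_of_nonneg_left hy.1
    · calc y - z ≤ y := sub_le_self _ hz.1
        _ ≤ a := hy.2

end Pool.Agent.Results.MP_dd2a7c_co.DownSets
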