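import Pool.Agent.V1121.PF.Coset

/-!
# Iterated sumsets and proper coset progressions, with polynomial bounds

A coset progression `H + {∑ c_i v_i : |c_i| ≤ M_i}` (`H` a finite subgroup) is proper if different
coefficient vectors give different cosets of `H`; it is the set `ψ(ℤ^d ∩ B) + H` for the box
`B = {x : |x_i| ≤ M_i + 1/2}` and the homomorphism `ψ(c) = ∑ c_i v_i`.
-/

set_option autoImplicit false
open scoped Pointwise

namespace Pool.Agent.Results.MP_dd2a7c_co.IteratedProper

/-- **Freiman's theorem in arbitrary abelian groups with polynomial bounds and proper coset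
progressions, for iterated sumsets.** If the `n`-fold sumset of the finite nonempty set `A` has at
most `L |A|` elements, where `n ≥ 2` and `log (2 L) ≤ n ^ k`, then `A` is covered by
`(2 L) ^ (113000 k)` translates of a proper coset progression of dimension at most
`420 (1 + log (2 L) / log n)` with at most `|A|` elements. -/
theorem result {Γ : Type*} [AddCommGroup Γ] [DecidableEq Γ] (k n : ℕ) (hk : 1 ≤ k) (hn : 2 ≤ n)
    (L : ℝ) (A : Finset Γ) (hA : A.Nonempty)
    (hL : (((Fintype.piFinset fun _ : Fin n => A).image fun f => ∑ i, f i).card : ℝ) ≤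
      L * (A.card : ℝ))
    (hkn : Real.log (2 * L) ≤ (n : ℝ) ^ k) :
    ∃ (d : ℕ) (v : Fin d → Γ) (M : Fin d → ℕ) (H : AddSubgroup Γ) (T : Finset Γ),
      (d : ℝ) ≤ 420 * (1 + Real.log (2 * L) / Real.log n) ∧ Finite H ∧
      (∀ a b : Fin d → ℤ, (∀ i, |a i| ≤ M i) → (∀ i, |b i| ≤ M i) →
        ∑ i, a i • v i - ∑ i, b i • v i ∈ H → a = b) ∧
      (∏ i, (2 * M i + 1)) * Nat.card H ≤ A.card ∧
      (T.card : ℝ) ≤ (2 * L) ^ (113000 * k) ∧
      ∀ a ∈ A, ∃ t ∈ T, ∃ c : Fin d → ℤ, (∀ i, |c i| ≤ M i) ∧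
        ∃ h ∈ H, a = t + ∑ i, c i • v i + h := by
  obtain ⟨d, hd, v, M, H, T, h1, h2, h3, h4, h5⟩ := V1121.PF.iterated_coset hk hn hA hL hkn
  exact ⟨d, v, M, H, T, hd, h1, h2, h3, h4, h5⟩

end Pool.Agent.Results.MP_dd2a7c_co.IteratedProper
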