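import Pool.Agent.V1121.PF.Coset

/-!
# The Green-Ruzsa theorem with near-polynomial bounds and proper coset progressions

A coset progression `H + {∑ c_i v_i : |c_i| ≤ M_i}` (`H` a finite subgroup) is proper if different
coefficient vectors give different cosets of `H`; it is the set `ψ(ℤ^d ∩ B) + H` for the box
`B = {x : |x_i| ≤ M_i + 1/2}` and the homomorphism `ψ(c) = ∑ c_i v_i`.
-/

set_option autoImplicit false
open scoped Pointwise

namespace Pool.Agent.Results.MP_dd2a7c_co.ProperCosetProgressions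

/-- **Freiman's theorem in arbitrary abelian groups, with near-polynomial bounds, for proper coset
progressions.** A finite nonempty set `A` with `|A + A| ≤ K |A|` is covered by
`(2K)^(18000 (1 + log (1 + log 2K)))` translates of a proper coset progression of dimension at most
`300 log 2K` with at most `|A|` elements. -/
theorem result {Γ : Type*} [AddCommGroup Γ] [DecidableEq Γ] (K : ℝ) (A : Finset Γ)
    (hA : A.Nonempty) (hK : ((A + A).card : ℝ) ≤ K * (A.card : ℝ)) :
    ∃ (d : ℕ) (v : Fin d → Γ) (M : Fin d → ℕ) (H : AddSubgroup Γ) (T : Finset Γ),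
      (d : ℝ) ≤ 300 * Real.log (2 * K) ∧ Finite H ∧
      (∀ a b : Fin d → ℤ, (∀ i, |a i| ≤ M i) → (∀ i, |b i| ≤ M i) →
        ∑ i, a i • v i - ∑ i, b i • v i ∈ H → a = b) ∧
      (∏ i, (2 * M i + 1)) * Nat.card H ≤ A.card ∧
      (T.card : ℝ) ≤ (2 * K) ^ (18000 * (1 + Real.log (1 + Real.log (2 * K)))) ∧
      ∀ a ∈ A, ∃ t ∈ T, ∃ c : Fin d → ℤ, (∀ i, |c i| ≤ M i) ∧
        ∃ h ∈ H, a = t + ∑ i, c i • v i + h := by
  have hsub : TH513.IS.sm A (2 ^ 1) ⊆ A + A := by
    intro x hx
    obtain ⟨f, hf, rfl⟩ := TH513.IS.mem_sm.1 hx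
    have e : ∑ i : Fin (2 ^ 1), f i = f 0 + f 1 := Fin.sum_univ_two f
    rw [e]
    exact Finset.add_mem_add (hf 0) (hf 1)
  have hL : ((TH513.IS.sm A (2 ^ 1)).card : ℝ) ≤ K * A.card :=
    le_trans (by exact_mod_cast Finset.card_le_card hsub) hK
  have hK1 : 1 ≤ K := V1121.PF.one_le_of_card (by norm_num) hA hL
  obtain ⟨d, hd, v, M, H, T, h1, h2, h3, h4, h5⟩ :=
    V1121.PF.scale_coset hA le_rfl hL hK1 hK1 (by rw [pow_one])
  refine ⟨d, v, M, H, T, hd, h1, h2, h3, h4.trans ?_, h5⟩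
  have hlog : 0 ≤ Real.log (2 * K) := Real.log_nonneg (by linarith)
  have hlog2 : 0 ≤ Real.log (1 + Real.log (2 * K)) := Real.log_nonneg (by linarith)
  have h6 : K ≤ (2 * K) ^ (1 : ℝ) := by rw [Real.rpow_one]; linarith
  calc K * (2 * K) ^ (17000 * (1 + Real.log (1 + Real.log (2 * K))))
      ≤ (2 * K) ^ (1 : ℝ) * (2 * K) ^ (17000 * (1 + Real.log (1 + Real.log (2 * K)))) :=
        mul_le_mul_of_nonneg_right h6 (by positivity)
    _ = (2 * K) ^ (1 + 17000 * (1 + Real.log (1 + Real.log (2 * K)))) :=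
        (Real.rpow_add (by linarith) _ _).symm
    _ ≤ (2 * K) ^ (18000 * (1 + Real.log (1 + Real.log (2 * K)))) := by
        apply Real.rpow_le_rpow_of_exponent_le (by linarith)
        linarith

end Pool.Agent.Results.MP_dd2a7c_co.ProperCosetProgressions
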