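import Pool.Agent.V1161.PF.E

/-!
# The polynomial Freiman-Ruzsa conjecture for unions of products of nested convex sets

`Conclusion C K A` is the conclusion of Q1 with the constant `C`: a centred convex coset
progression of dimension at most `C log (2 K)` and volume at most `|A|`, at most `C K ^ C` translates of
which cover `A`. (`re v` is the real vector of the integer vector `v`, `lat B` the set of the integer
points of `B`, `Body B` says that `B` is a centrally symmetric convex body, and `Cov B ψ H T A` that `A` is
covered by the translates by `T` of `ψ(ℤ^r ∩ B) + H`; see `Pool.Agent.Y806.DF`.)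

Let the coordinates of `ℤ^d` be divided into `n` blocks, `c j` being the block of the coordinate `j`
(`d` and `n` are arbitrary), and let `𝓒 i` be a family of convex sets in the space of the block `i`
(cylinders in `ℝ^d`), which contain `0`. `Families L c 𝓒` says that moreover each `𝓒 i` is a union
of at most `L` chains. `UnionOfProducts 𝓒 D` says that the finite set `D` of integer points is a
union of sets of the form (integer points of the product of one member of each `𝓒 i`); no bound
for their number is assumed. Examples: the down-sets of `ℕ^d` (`L = 1`); the sets of integer points such that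
with `x` all points `y` with `|y_j| ≤ |x_j|` are in the set (`L = 1`); the sets which contain with `x` all
points `y` such that `y_j` is between `0` and `x_j` for each `j` (`L = 2`); the unions of products of dilates of
given convex bodies.

Such a set need not be dense in its convex hull. For example, if `r = log K` and `m` is large, the union of the
cube `{0, ..., m}^r` and the `r` segments `{0 ≤ x_i ≤ K m / r, x_j = 0 for j ≠ i}` has doubling `K^{O(1)}`, but its
convex hull contains more than `K^{c log K}` times as many integer points.

Proof. By the weak Marton theorem (a starting result of this problem) a large part of `D`, after putting the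
coordinates outside of `O(log K)` blocks equal to `0`, is injectively mapped into `D`, so that
`|D ∩ ℝ^J| ≥ K^{-185} |D|` for a set `J` of `O(log K)` blocks. By the pigeonhole principle one can suppose that `𝓒 i` is
a chain for `i ∈ J`. Let `b_i(y)` be the number of the integer points of the smallest member of `𝓒 i` (in
the level of `y`), let `x` be the element of `D ∩ ℝ^J` with the largest product `M = ∏ b_i(x)`. For every other
element `y` one has `∏ b_i(y) ≤ M` and `∏ max (b_i(x), b_i(y)) ≤ |D + D|`. Hence
`1 ≤ (|D + D| / M)^{3/4} ∏ (b_i(x)/b_i(y))^{1/2} min(1, b_i(x)/b_i(y))^{3/4}`, and the sum of the right side over all `y` is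
at most `(|D + D| / M)^{3/4} ∏ (6 b_i(x))`, so that `|D| ≤ K^{O(1)} M`: the product of the members of the chains at `x` is a
convex set `X` inside `D` with `|D| ≤ K^{O(1)} |X|`. The rest follows from the starting result
`DimensionFree`.
-/

set_option autoImplicit false

namespace Pool.Agent.Results.MP_dd2a7c_co.UnionsOfProducts

open Finset
open scoped Pointwise
open Pool.Agent.Y806.DF Pool.Agent.V1161.PF

universe u

/-- The conclusion of Q1 with the constant `C`. -/
def Conclusion (C : ℕ) (K : ℝ) {Γ : Type u} [AddCommGroup Γ] (A : Finset Γ) : Prop :=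
  ∃ (r : ℕ) (B : Set (Fin r → ℝ)) (θ : (Fin r → ℤ) →+ Γ) (H : AddSubgroup Γ) (T : Finset Γ),
    (r : ℝ) ≤ C * Real.log (2 * K) ∧ Body B ∧ Finite H ∧
    (lat B).ncard * Nat.card H ≤ A.card ∧ (T.card : ℝ) ≤ C * K ^ C ∧ Cov B θ H T A

/-- **The polynomial Freiman-Ruzsa conjecture for sets modelled on unions of products of nested convex sets.**
(1) For every `L` there is a constant `C` such that Q1 holds with the constant `C` for every finite set `A` with
`|A + A| ≤ K |A|` in any abelian group which has at least `|A| / K` elements in a set `g + ψ(D) + H`, where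
`D` is a union of products of members of families of width at most `L`, of any dimension `d`, with
`|D + D| ≤ K |D|`, and `H` is a finite subgroup with `|D| |H| ≤ K |A|`.
(2) In particular there is an absolute constant `C` such that Q1 holds with the constant `C` for every
finite set `A` of integer points, in any dimension, which contains with `x` all points whose
coordinates are between `0` and those of `x`. -/
theorem result :
    (∀ L : ℕ, 1 ≤ L → ∃ C : ℕ, ∀ (Γ : Type u) [AddCommGroup Γ] [DecidableEq Γ] (K : ℝ) (A : Finset Γ),
      A.Nonempty → ((A + A).card : ℝ) ≤ K * A.card →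
      ∀ (d n : ℕ) (c : Fin d → Fin n) (𝓒 : Fin n → Set (Set (Fin d → ℝ))) (D : Finset (Fin d → ℤ))
        (ψ : (Fin d → ℤ) →+ Γ) (H : AddSubgroup Γ) (g : Γ),
        Families L c 𝓒 → UnionOfProducts 𝓒 D → D.Nonempty → ((D + D).card : ℝ) ≤ K * D.card →
        Finite H → (D.card : ℝ) * Nat.card H ≤ K * A.card →
        (A.card : ℝ) ≤ K * ({a : Γ | a ∈ A ∧ ∃ x ∈ D, ∃ h ∈ H, a = g + ψ x + h}.ncard : ℝ) →
        Conclusion C K A) ∧
    (∃ C : ℕ, ∀ (d : ℕ) (K : ℝ) (A : Finset (Fin d → ℤ)), A.Nonempty →
      ((A + A).card : ℝ) ≤ K * A.card →
      (∀ x ∈ A, ∀ y : Fin d → ℤ, (∀ j, (0 ≤ y j ∧ y j ≤ x j) ∨ (x j ≤ y j ∧ y j ≤ 0)) → y ∈ A) →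
      Conclusion C K A) := by
  refine ⟨fun L hL => ⟨Cst L, ?_⟩, ⟨Cst 2, ?_⟩⟩
  · intro Γ _ _ K A hA hK d n c 𝓒 D ψ H g h𝓒 hD hne hDK hfin hsize hmeet
    exact conclusion hA hK hL h𝓒 hD hne hDK hfin hsize hmeet
  · intro d K A hA hK hd
    exact anchored hA hK hd

end Pool.Agent.Results.MP_dd2a7c_co.UnionsOfProducts
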